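import Pool.Agent.Helper67_TF.Kit

/-! Squad TF, row MUL: all multi-compatibility. -/

set_option autoImplicit false

namespace Pool.Agent.TF.H67

theorem sameLaw_refl {Ω S : Type} [Fintype Ω] (P : Law Ω) (X : Ω → S) : SameLaw P X P X :=
  fun _ => rfl

theorem q_congr {Ω S : Type} [Fintype Ω] (P : Law Ω) (X Y : Ω → S)
    (h : ∀ ω, P.p ω ≠ 0 → X ω = Y ω) (s : S) : P.q X s = P.q Y s := by
  unfold Law.q
  refine Finset.sum_congr rfl fun ω _ => ?_
  by_cases h0 : P.p ω = 0
  · rw [h0]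
    simp
  · rw [h ω h0]

/-- the conditionally independent coupling -/
theorem indep (L : Lib) {Ω X Cc : Type} [Fintype Ω] (P : Law Ω) (x : Ω → X) (c : Ω → Cc) :
    ∃ (Ω' : Type) (_ : Fintype Ω') (P' : Law Ω') (x0 x' : Ω' → X) (c' : Ω' → Cc),
      SameLaw P' (fun ω => (x' ω, c' ω)) P (fun ω => (x ω, c ω)) ∧
      SameLaw P' (fun ω => (x0 ω, c' ω)) P (fun ω => (x ω, c ω)) ∧
      2 * P.C x c ≤ P'.C (fun ω => (x0 ω, x' ω)) c' := by
  obtain ⟨P', h1, h2, h3, _, h5⟩ := L.gl2 Ω Ω Cc P P c c (sameLaw_refl P c)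
  refine ⟨Ω × Ω, inferInstance, P', fun ω => x ω.1, fun ω => x ω.2, fun ω => c ω.1, ?_, ?_, ?_⟩
  · have g1 := L.sam.1 (Ω × Ω) Ω Ω (X × Cc) P' P (fun ω => ω.2) (fun ω => ω)
      (fun ω => (x ω, c ω)) h2
    intro s
    rw [← g1 s]
    refine q_congr P' _ _ (fun ω hω => ?_) s
    beta_reduce
    rw [(h3 ω hω).2.2]
  · exact L.sam.1 (Ω × Ω) Ω Ω (X × Cc) P' P (fun ω => ω.1) (fun ω => ω)
      (fun ω => (x ω, c ω)) h1
  · have g1 := h5 X X x x
    rw [g1]
    linarith

theorem mul (L : Lib) (thi : ThiStmt) (cub : CubStmt) (glu : GluStmt) : MulStmt := by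
  intro G _ _ _ n F l e f R Ω _ P x c hT τ j hj
  have he := hT.base.e0
  have hf := hT.f0
  have hR : (1 : ℝ) ≤ R := by
    have := j.pos
    exact_mod_cast this
  have hglu := glu Ω G (Fin R → Fin n) G G (Option G) G G P x c
    (fun x c => F.a (c j) x) (fun x c => F.b (c j) x) R
    (fun i x c => (τ i).map (fun σ => F.lab σ (c i) x)) (30 * (3 * f + 60 * e)) ?_ ?_
  · -- conclusion
    have h1 : P.C (fun ω => F.b (c ω j) (x ω)) c ≤ l / 2 + e := by
      refine C_le_const L _ _ (fun c => (F.D (c j)).image (F.lab false (c j))) _ ?_ ?_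
      · intro ω hω
        exact Finset.mem_image_of_mem (F.lab false (c ω j)) (hT.supp ω hω j)
      · intro ω _
        exact hT.base.hlab false (c ω j)
    have h2 := hT.move j
    have h3 := C_chain' L (P := P) (fun ω => F.a (c ω j) (x ω)) (fun ω => F.b (c ω j) (x ω)) c
    have h4 : P.C (fun ω => (F.a (c ω j) (x ω), F.b (c ω j) (x ω))) c ≤ P.C x c :=
      C_le_of_det L (det_fun (fun p => (F.a (p.2 j) p.1, F.b (p.2 j) p.1)) fun _ _ => rfl)
    have h5 : P.C (fun ω => F.a (c ω j) (x ω)) (fun ω => (F.labs τ (c ω) (x ω), c ω)) +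
        P.C (fun ω => F.b (c ω j) (x ω)) (fun ω => (F.labs τ (c ω) (x ω), c ω)) -
        P.C x (fun ω => (F.labs τ (c ω) (x ω), c ω)) ≤
        P.C (fun ω => F.a (c ω j) (x ω)) c + P.C (fun ω => F.b (c ω j) (x ω)) c - P.C x c +
          2 * R * (30 * (3 * f + 60 * e)) := hglu
    nlinarith [mul_nonneg (by linarith : (0 : ℝ) ≤ R - 1) hf,
      mul_nonneg (by linarith : (0 : ℝ) ≤ R - 1) he, mul_nonneg (by linarith : (0 : ℝ) ≤ R) hf,
      mul_nonneg (by linarith : (0 : ℝ) ≤ R) he]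
  · intro ω ω' g1 g2 hc ha hb
    have ha' : F.a (c ω j) (x ω) = F.a (c ω' j) (x ω') := ha
    have hb' : F.b (c ω j) (x ω) = F.b (c ω' j) (x ω') := hb
    rw [← F.sub (c ω j) (x ω) (hT.supp ω g1 j), ← F.sub (c ω' j) (x ω') (hT.supp ω' g2 j), ha',
      hb']
  · intro i
    rcases hi : τ i with _ | σ
    · obtain ⟨Ω', _, P', x0, x', c', h1, h2, h3⟩ := indep L P x c
      refine ⟨Ω', _, P', x0, x', c', fun _ _ _ => 0, fun _ _ _ => 0, h1, h2, ?_, ?_⟩
      · have : 0 ≤ 30 * (3 * f + 60 * e) := by positivity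
        linarith
      · intro ω ω' _ _ _ _
        simp
    · have hij : i ≠ j := by
        rintro rfl
        rw [hj] at hi
        exact absurd hi (by simp)
      have hprof := thi G n F l e f R Ω P x c hT i j hij
      obtain ⟨Ω', _, P', x0, x', c', h1, h2, h3, h4⟩ := cub G n F l (3 * f + 60 * e) Ω
        (Fin R → Fin n) P x c (fun c => c i) (fun c => c j) hprof
      refine ⟨Ω', _, P', x0, x', c', fun x0 c α => F.lab σ (c i) (α - F.b (c j) x0),
        fun x0 c β => F.lab σ (c i) (F.a (c j) x0 - β), h2, h1, h4, ?_⟩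
      intro ω ω' g1 g2 hc hx0
      obtain ⟨e1, e2, e3, e4⟩ := h3 ω g1
      obtain ⟨k1, k2, k3, k4⟩ := h3 ω' g2
      simp only [Option.map_some, Option.some.injEq]
      rw [← hc, ← hx0] at k1 k2 k3 k4 ⊢
      cases σ
      · simp only [Fam.lab, Bool.false_eq_true, if_false]
        constructor
        · intro h
          have h5 : F.b (c' ω i) (F.a (c' ω j) (x' ω) - F.b (c' ω j) (x0 ω)) =
              F.b (c' ω i) (F.a (c' ω j) (x' ω') - F.b (c' ω j) (x0 ω)) := by
            rw [e4, k4, h]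
          refine ⟨h5, ?_⟩
          rw [e2, k2, h5] at h
          exact add_left_cancel (sub_left_injective h)
        · rintro ⟨h5, h6⟩
          rw [e2, k2, h5, h6]
      · simp only [Fam.lab, if_true]
        constructor
        · intro h
          have h5 : F.a (c' ω i) (F.a (c' ω j) (x' ω) - F.b (c' ω j) (x0 ω)) =
              F.a (c' ω i) (F.a (c' ω j) (x' ω') - F.b (c' ω j) (x0 ω)) := by
            rw [e3, k3, h]
          refine ⟨h5, ?_⟩
          rw [e1, k1, h5] at h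
          exact add_left_cancel (sub_left_injective h)
        · rintro ⟨h5, h6⟩
          rw [e1, k1, h5, h6]

end Pool.Agent.TF.H67
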