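import Pool.Agent.Helper67_TF.Kit

/-! Squad TF, row THI: the profile of a thin law. -/

set_option autoImplicit false

namespace Pool.Agent.TF.H67

theorem thi (L : Lib) (pr2 : Pr2Stmt) : ThiStmt := by
  intro G _ _ _ n F l e f R Ω _ P x c hT i j hij
  have he := hT.base.e0
  have hf := hT.f0
  have hpr := pr2 G n F l e Ω P x (fun ω => c ω i) (fun ω => c ω j) hT.base
    (fun ω hω => ⟨hT.supp ω hω i, hT.supp ω hω j⟩) (hT.pair i j hij)
  -- `c` determines the pair
  have hdet : P.Det c (fun ω => (c ω i, c ω j)) := det_fun (fun c => (c i, c j)) fun _ _ => rfl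
  -- upper bounds pass to the finer condition
  have up : ∀ {S : Type} (X : Ω → S), P.C X c ≤ P.C X (fun ω => (c ω i, c ω j)) :=
    fun X => C_anti L hdet
  have up' : ∀ {S T : Type} (X : Ω → S) (Y : Ω → T),
      P.C X (fun ω => (Y ω, c ω)) ≤ P.C X (fun ω => (Y ω, (c ω i, c ω j))) :=
    fun X Y => C_anti L (det_fun (fun p => (p.1, (p.2 i, p.2 j))) fun _ _ => rfl)
  set T := P.C x c with hTdef
  -- lower bounds for `b`
  have b_lo : ∀ i, l / 2 - f ≤ P.C (fun ω => F.b (c ω i) (x ω)) c := by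
    intro i
    refine (hT.move i).trans ?_
    exact C_anti L (det_fun Prod.snd fun _ _ => rfl)
  -- `x` given `a_i`
  have x_a : ∀ i, l / 2 - f ≤ P.C x (fun ω => (F.a (c ω i) (x ω), c ω)) := by
    intro i
    refine (hT.move i).trans ?_
    refine C_le_of_det L (det_fun (fun p => F.b (p.2.2 i) p.1) fun _ _ => rfl)
  -- the pair `(a_i, label of j)`
  have key : ∀ (i j : Fin R) (τ : Bool),
      P.C (fun ω => F.lab τ (c ω j) (x ω)) (fun ω => (F.a (c ω i) (x ω), c ω)) ≤ l / 4 + 20 * e →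
      P.C (fun ω => (F.a (c ω i) (x ω), F.lab τ (c ω j) (x ω))) c ≤
        T - l / 4 + f + 20 * e := by
    intro i j τ h
    have h1 := C_chain' L (P := P) (fun ω => F.a (c ω i) (x ω)) x c
    have h2 : P.C (fun ω => (F.a (c ω i) (x ω), x ω)) c = T :=
      C_eq_of_det L (det_fun (fun p => (F.a (p.2 i) p.1, p.1)) fun _ _ => rfl)
        (det_fun (fun p => p.1.2) fun _ _ => rfl)
    have h3 := C_chain' L (P := P) (fun ω => F.a (c ω i) (x ω))
      (fun ω => F.lab τ (c ω j) (x ω)) c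
    have h4 := x_a i
    linarith
  have hJ : ∀ τ, P.C (fun ω => F.lab τ (c ω j) (x ω)) (fun ω => (F.a (c ω i) (x ω), c ω)) ≤
      l / 4 + 20 * e := fun τ => (up' _ _).trans (hpr.jk true τ)
  have hI : ∀ σ, P.C (fun ω => F.lab σ (c ω i) (x ω)) (fun ω => (F.a (c ω j) (x ω), c ω)) ≤
      l / 4 + 20 * e := fun σ => (up' _ _).trans (hpr.kj σ true)
  -- the pairs
  have q3 : P.C (fun ω => (F.a (c ω i) (x ω), F.b (c ω j) (x ω))) c ≤ T - l / 4 + f + 20 * e :=
    key i j false (hJ false)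
  have q4 : P.C (fun ω => (F.a (c ω i) (x ω), F.a (c ω j) (x ω))) c ≤ T - l / 4 + f + 20 * e :=
    key i j true (hJ true)
  have q2 : P.C (fun ω => (F.a (c ω j) (x ω), F.b (c ω i) (x ω))) c ≤ T - l / 4 + f + 20 * e :=
    key j i false (hI false)
  -- lower bound for the pair of `b`'s
  have qb : 3 * l / 4 - 2 * f - 20 * e ≤
      P.C (fun ω => (F.b (c ω i) (x ω), F.b (c ω j) (x ω))) c := by
    have h1 := C_chain' L (P := P) (fun ω => F.b (c ω i) (x ω)) (fun ω => F.b (c ω j) (x ω)) c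
    have h2 := C_chain L (P := P) (fun ω => F.a (c ω j) (x ω)) (fun ω => F.b (c ω i) (x ω)) c
    have h3 := C_pair_le L (P := P) (fun ω => F.a (c ω j) (x ω)) (fun ω => F.b (c ω j) (x ω))
      (fun ω => (F.b (c ω i) (x ω), c ω))
    have h4 := C_chain L (P := P) (fun ω => (F.a (c ω j) (x ω), F.b (c ω j) (x ω)))
      (fun ω => F.b (c ω i) (x ω)) c
    have h5 : T ≤ P.C (fun ω => ((F.a (c ω j) (x ω), F.b (c ω j) (x ω)),
        F.b (c ω i) (x ω))) c := by
      refine C_le_of_det L ?_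
      intro ω ω' g1 g2 e'
      simp only [Prod.mk.injEq] at e'
      obtain ⟨⟨⟨e1, e2⟩, _⟩, e3⟩ := e'
      rw [← F.sub (c ω j) (x ω) (hT.supp ω g1 j), ← F.sub (c ω' j) (x ω') (hT.supp ω' g2 j), e1, e2]
    have h6 := b_lo i
    linarith
  constructor
  · linarith
  · intro ω hω
    exact ⟨hT.supp ω hω i, hT.supp ω hω j⟩
  · have h1 := (up (fun ω => (F.b (c ω i) (x ω), F.b (c ω j) (x ω)))).trans (hpr.pair false false)
    linarith
  · have h1 := (up (fun ω => F.b (c ω i) (x ω))).trans (hpr.labk_hi false)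
    linarith
  · have h1 := C_chain L (P := P) (fun ω => F.a (c ω j) (x ω)) (fun ω => F.b (c ω i) (x ω)) c
    have h2 := b_lo i
    linarith
  · linarith
  · have h1 := C_chain L (P := P) (fun ω => F.a (c ω i) (x ω)) (fun ω => F.b (c ω j) (x ω)) c
    have h2 := b_lo j
    linarith
  · have h1 := (up' (fun ω => (F.a (c ω i) (x ω), F.b (c ω j) (x ω)))
      (fun ω => F.w true (c ω i) (c ω j) (x ω))).trans (hpr.wpair true false)
    linarith
  · linarith
  · have h1 := (up' (fun ω => (F.b (c ω i) (x ω), F.b (c ω j) (x ω)))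
      (fun ω => F.w false (c ω i) (c ω j) (x ω))).trans (hpr.wpair false false)
    have h2 := C_chain L (P := P) (fun ω => (F.b (c ω i) (x ω), F.b (c ω j) (x ω)))
      (fun ω => F.w false (c ω i) (c ω j) (x ω)) c
    have h3 : P.C (fun ω => (F.b (c ω i) (x ω), F.b (c ω j) (x ω))) c ≤
        P.C (fun ω => ((F.b (c ω i) (x ω), F.b (c ω j) (x ω)),
          F.w false (c ω i) (c ω j) (x ω))) c :=
      C_le_of_det L (det_fun (fun p => p.1.1) fun _ _ => rfl)
    have h4 := C_chain L (P := P) (fun ω => (F.a (c ω i) (x ω), F.a (c ω j) (x ω)))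
      (fun ω => F.w false (c ω i) (c ω j) (x ω)) c
    have h5 : P.C (fun ω => ((F.a (c ω i) (x ω), F.a (c ω j) (x ω)),
        F.w false (c ω i) (c ω j) (x ω))) c ≤
        P.C (fun ω => (F.a (c ω i) (x ω), F.a (c ω j) (x ω))) c := by
      refine C_le_of_det L (det_fun (fun p => ((p.1.1, p.1.2), p.1.1 - p.1.2)) fun _ _ => ?_)
      simp [Fam.w]
    linarith
  · have h1 := hI true
    have h2 : P.C (fun ω => F.a (c ω i) (x ω)) (fun ω => (F.a (c ω j) (x ω), c ω)) ≤
      l / 4 + 20 * e := h1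
    linarith
  · have h1 := hJ true
    have h2 : P.C (fun ω => F.a (c ω j) (x ω)) (fun ω => (F.a (c ω i) (x ω), c ω)) ≤
      l / 4 + 20 * e := h1
    linarith

end Pool.Agent.TF.H67
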