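import Pool.Agent.TF.Stmts

/-! Squad TF, helper67: small kit for conditional entropies. -/

set_option autoImplicit false

namespace Pool.Agent.TF.H67

variable {Ω : Type} [Fintype Ω] {P : Law Ω} {S T U V : Type}

theorem det_fun {X : Ω → S} {Y : Ω → T} (g : S → T) (h : ∀ ω, P.p ω ≠ 0 → Y ω = g (X ω)) :
    P.Det X Y := by
  intro ω ω' h1 h2 e
  rw [h ω h1, h ω' h2, e]

theorem H_le (L : Lib) {X : Ω → S} {Y : Ω → T} (h : P.Det X Y) : P.H Y ≤ P.H X :=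
  L.mon.1 Ω S T P X Y h

theorem H_eq (L : Lib) {X : Ω → S} {Y : Ω → T} (h : P.Det X Y) (h' : P.Det Y X) :
    P.H X = P.H Y :=
  le_antisymm (H_le L h') (H_le L h)

theorem C_nonneg (L : Lib) (X : Ω → S) (Y : Ω → T) : 0 ≤ P.C X Y := by
  have h : P.H Y ≤ P.H (fun ω => (X ω, Y ω)) :=
    H_le L (det_fun Prod.snd fun ω _ => rfl)
  unfold Law.C
  linarith

/-- chain rule -/
theorem C_chain (L : Lib) (X : Ω → S) (Y : Ω → T) (Z : Ω → U) :
    P.C (fun ω => (X ω, Y ω)) Z = P.C Y Z + P.C X (fun ω => (Y ω, Z ω)) := by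
  have h : P.H (fun ω => ((X ω, Y ω), Z ω)) = P.H (fun ω => (X ω, (Y ω, Z ω))) :=
    H_eq L (det_fun (fun p => (p.1.1, (p.1.2, p.2))) fun ω _ => rfl)
      (det_fun (fun p => ((p.1, p.2.1), p.2.2)) fun ω _ => rfl)
  unfold Law.C
  linarith

theorem C_chain' (L : Lib) (X : Ω → S) (Y : Ω → T) (Z : Ω → U) :
    P.C (fun ω => (X ω, Y ω)) Z = P.C X Z + P.C Y (fun ω => (X ω, Z ω)) := by
  have h : P.H (fun ω => ((X ω, Y ω), Z ω)) = P.H (fun ω => (Y ω, (X ω, Z ω))) :=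
    H_eq L (det_fun (fun p => (p.1.2, (p.1.1, p.2))) fun ω _ => rfl)
      (det_fun (fun p => ((p.2.1, p.1), p.2.2)) fun ω _ => rfl)
  unfold Law.C
  linarith

/-- monotonicity in the first argument -/
theorem C_le_of_det (L : Lib) {X : Ω → S} {Y : Ω → T} {Z : Ω → U}
    (h : P.Det (fun ω => (X ω, Z ω)) Y) : P.C Y Z ≤ P.C X Z := by
  have h1 : P.H (fun ω => (Y ω, Z ω)) ≤ P.H (fun ω => (X ω, Z ω)) := by
    refine H_le L ?_
    intro ω ω' h1 h2 e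
    have h3 := h ω ω' h1 h2 e
    have h4 : Z ω = Z ω' := (Prod.ext_iff.mp e).2
    show (Y ω, Z ω) = (Y ω', Z ω')
    rw [h3, h4]
  unfold Law.C
  linarith

/-- equality in the first argument -/
theorem C_eq_of_det (L : Lib) {X : Ω → S} {Y : Ω → T} {Z : Ω → U}
    (h : P.Det (fun ω => (X ω, Z ω)) Y) (h' : P.Det (fun ω => (Y ω, Z ω)) X) :
    P.C Y Z = P.C X Z :=
  le_antisymm (C_le_of_det L h) (C_le_of_det L h')

/-- monotonicity in the condition -/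
theorem C_anti (L : Lib) {X : Ω → S} {Y : Ω → T} {Z : Ω → U} (h : P.Det Y Z) :
    P.C X Y ≤ P.C X Z := by
  have h1 : P.C X (fun ω => (Y ω, Z ω)) ≤ P.C X Z := L.sub Ω S T U P X Y Z
  have h2 : P.H (fun ω => (Y ω, Z ω)) = P.H Y := by
    refine H_eq L (det_fun Prod.fst fun ω _ => rfl) ?_
    intro ω ω' g1 g2 e
    show (Y ω, Z ω) = (Y ω', Z ω')
    rw [e, h ω ω' g1 g2 e]
  have h3 : P.H (fun ω => (X ω, (Y ω, Z ω))) = P.H (fun ω => (X ω, Y ω)) := by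
    refine H_eq L (det_fun (fun p => (p.1, p.2.1)) fun ω _ => rfl) ?_
    intro ω ω' g1 g2 e
    have e1 : X ω = X ω' := (Prod.ext_iff.mp e).1
    have e2 : Y ω = Y ω' := (Prod.ext_iff.mp e).2
    show (X ω, (Y ω, Z ω)) = (X ω', (Y ω', Z ω'))
    rw [e1, e2, h ω ω' g1 g2 e2]
  unfold Law.C at h1 ⊢
  linarith

theorem C_cond_eq (L : Lib) {X : Ω → S} {Y : Ω → T} {Z : Ω → U} (h : P.Det Y Z)
    (h' : P.Det Z Y) : P.C X Y = P.C X Z :=
  le_antisymm (C_anti L h) (C_anti L h')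

theorem C_pair_le (L : Lib) (X : Ω → S) (Y : Ω → T) (Z : Ω → U) :
    P.C (fun ω => (X ω, Y ω)) Z ≤ P.C X Z + P.C Y Z := by
  rw [C_chain' L]
  have h1 : P.C Y (fun ω => (X ω, Z ω)) ≤ P.C Y Z := L.sub Ω T S U P Y X Z
  linarith

theorem E_le {f : Ω → ℝ} {c : ℝ} (h : ∀ ω, P.p ω ≠ 0 → f ω ≤ c) : P.E f ≤ c := by
  unfold Law.E
  calc ∑ ω, P.p ω * f ω ≤ ∑ ω, P.p ω * c := by
        refine Finset.sum_le_sum fun ω _ => ?_
        by_cases h0 : P.p ω = 0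
        · rw [h0, zero_mul, zero_mul]
        · exact mul_le_mul_of_nonneg_left (h ω h0) (P.nn ω)
    _ = c := by rw [← Finset.sum_mul, P.one, one_mul]

theorem E_congr {f g : Ω → ℝ} (h : ∀ ω, P.p ω ≠ 0 → f ω = g ω) : P.E f = P.E g := by
  unfold Law.E
  refine Finset.sum_congr rfl fun ω _ => ?_
  by_cases h0 : P.p ω = 0
  · rw [h0, zero_mul, zero_mul]
  · rw [h ω h0]

/-- the size of the fibre bounds the conditional entropy -/
theorem C_le_card (L : Lib) (X : Ω → S) (Y : Ω → U) (F : U → Finset S)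
    (h : ∀ ω, P.p ω ≠ 0 → X ω ∈ F (Y ω)) :
    P.C X Y ≤ P.E (fun ω => Real.log ((F (Y ω)).card)) := by
  have h1 := L.gic Ω S U P X Y F (fun _ _ => 1) (fun _ _ _ => zero_le_one)
    (fun ω hω => ⟨h ω hω, one_pos⟩)
  have h2 : P.E (fun ω => Real.log ((fun (_ : U) (_ : S) => (1 : ℝ)) (Y ω) (X ω))) = 0 := by
    unfold Law.E
    simp
  have h3 : P.E (fun ω => Real.log (∑ s ∈ F (Y ω), (fun (_ : U) (_ : S) => (1 : ℝ)) (Y ω) s)) =
      P.E (fun ω => Real.log ((F (Y ω)).card)) := by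
    unfold Law.E
    simp
  linarith

theorem C_le_const (L : Lib) (X : Ω → S) (Y : Ω → U) (F : U → Finset S) (c : ℝ)
    (h : ∀ ω, P.p ω ≠ 0 → X ω ∈ F (Y ω))
    (hc : ∀ ω, P.p ω ≠ 0 → Real.log ((F (Y ω)).card) ≤ c) :
    P.C X Y ≤ c :=
  (C_le_card L X Y F h).trans (E_le hc)

end Pool.Agent.TF.H67
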