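import Pool.Agent.Helper67_TF.Kit

/-! Squad TF, row PR2: the full profile. -/

set_option autoImplicit false

namespace Pool.Agent.TF.H67

theorem lab_sub {G : Type} [AddCommGroup G] [Fintype G] [DecidableEq G] {n : ℕ} (F : Fam G n)
    (σ : Bool) (k : Fin n) (x y : G) (hx : x ∈ F.D k) (hy : y ∈ F.D k)
    (h1 : F.lab σ k x = F.lab σ k y) (h2 : F.lab (!σ) k x = F.lab (!σ) k y) : x = y := by
  rw [← F.sub k x hx, ← F.sub k y hy]
  cases σ
  · simp only [Fam.lab, Bool.not_false, if_true, if_false, Bool.false_eq_true] at h1 h2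
    rw [h1, h2]
  · simp only [Fam.lab, Bool.not_true, if_true, if_false, Bool.false_eq_true] at h1 h2
    rw [h1, h2]

theorem pr2 (L : Lib) (pr1 : Pr1Stmt) (al1 : Al1Stmt) : Pr2Stmt := by
  intro G _ _ _ n F l e Ω _ P x k j hB hx hH
  obtain ⟨p1, p2, p3, p4⟩ := pr1 G n F l e Ω P x k j hB hx hH
  have he := hB.e0
  have hl0 : 0 ≤ l := by
    rw [← hB.hN]
    exact Real.log_nonneg (by exact_mod_cast Fintype.card_pos)
  have hcardD : ∀ k j : Fin n, Real.log ((F.D k ∩ F.D j).card) ≤ l := by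
    intro k j
    rcases Nat.eq_zero_or_pos (F.D k ∩ F.D j).card with h | h
    · rw [h]
      simpa using hl0
    · rw [← hB.hN]
      refine Real.log_le_log (by exact_mod_cast h) ?_
      exact_mod_cast Finset.card_le_univ _
  -- upper bounds for labels
  have labk_hi : ∀ σ, P.C (fun ω => F.lab σ (k ω) (x ω)) (fun ω => (k ω, j ω)) ≤ l / 2 + e := by
    intro σ
    refine C_le_const L _ _ (fun kj => (F.D kj.1).image (F.lab σ kj.1)) _ ?_ ?_
    · intro ω hω
      exact Finset.mem_image_of_mem _ (hx ω hω).1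
    · intro ω _
      exact hB.hlab σ (k ω)
  have labj_hi : ∀ σ, P.C (fun ω => F.lab σ (j ω) (x ω)) (fun ω => (k ω, j ω)) ≤ l / 2 + e := by
    intro σ
    refine C_le_const L _ _ (fun kj => (F.D kj.2).image (F.lab σ kj.2)) _ ?_ ?_
    · intro ω hω
      exact Finset.mem_image_of_mem _ (hx ω hω).2
    · intro ω _
      exact hB.hlab σ (j ω)
  have labk_lo : ∀ σ, l / 2 - 4 * e ≤
      P.C (fun ω => F.lab σ (k ω) (x ω)) (fun ω => (k ω, j ω)) := by
    intro σ
    have h1 : P.C x (fun ω => (k ω, j ω)) ≤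
        P.C (fun ω => (F.lab σ (k ω) (x ω), F.lab (!σ) (k ω) (x ω))) (fun ω => (k ω, j ω)) := by
      refine C_le_of_det L ?_
      intro ω ω' g1 g2 e'
      simp only [Prod.mk.injEq] at e'
      obtain ⟨⟨e1, e2⟩, e3, e4⟩ := e'
      rw [e3] at e1 e2
      have m1 := (hx ω g1).1
      rw [e3] at m1
      exact lab_sub F σ (k ω') _ _ m1 (hx ω' g2).1 e1 e2
    have h2 := C_pair_le L (P := P) (fun ω => F.lab σ (k ω) (x ω))
      (fun ω => F.lab (!σ) (k ω) (x ω)) (fun ω => (k ω, j ω))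
    have h3 := labk_hi (!σ)
    linarith
  have labj_lo : ∀ σ, l / 2 - 4 * e ≤
      P.C (fun ω => F.lab σ (j ω) (x ω)) (fun ω => (k ω, j ω)) := by
    intro σ
    have h1 : P.C x (fun ω => (k ω, j ω)) ≤
        P.C (fun ω => (F.lab σ (j ω) (x ω), F.lab (!σ) (j ω) (x ω))) (fun ω => (k ω, j ω)) := by
      refine C_le_of_det L ?_
      intro ω ω' g1 g2 e'
      simp only [Prod.mk.injEq] at e'
      obtain ⟨⟨e1, e2⟩, e3, e4⟩ := e'
      rw [e4] at e1 e2
      have m1 := (hx ω g1).2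
      rw [e4] at m1
      exact lab_sub F σ (j ω') _ _ m1 (hx ω' g2).2 e1 e2
    have h2 := C_pair_le L (P := P) (fun ω => F.lab σ (j ω) (x ω))
      (fun ω => F.lab (!σ) (j ω) (x ω)) (fun ω => (k ω, j ω))
    have h3 := labj_hi (!σ)
    linarith
  -- the values of w
  have w_lo : ∀ t, l / 2 - 5 * e ≤
      P.C (fun ω => F.w t (k ω) (j ω) (x ω)) (fun ω => (k ω, j ω)) := by
    intro t
    have h1 : P.C x (fun ω => (k ω, j ω)) ≤
        P.C (fun ω => (F.w t (k ω) (j ω) (x ω), F.w (!t) (k ω) (j ω) (x ω)))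
          (fun ω => (k ω, j ω)) := by
      refine C_le_of_det L ?_
      intro ω ω' g1 g2 e'
      simp only [Prod.mk.injEq] at e'
      obtain ⟨⟨e1, e2⟩, e3, e4⟩ := e'
      rw [e3, e4] at e1 e2
      have m1 := hx ω g1
      rw [e3, e4] at m1
      have h := (al1 G n F (k ω') (j ω')).2.2.2 (x ω) (Finset.mem_inter.mpr m1) (x ω')
        (Finset.mem_inter.mpr (hx ω' g2))
      cases t
      · exact h e2 e1
      · exact h e1 e2
    have h2 := C_pair_le L (P := P) (fun ω => F.w t (k ω) (j ω) (x ω))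
      (fun ω => F.w (!t) (k ω) (j ω) (x ω)) (fun ω => (k ω, j ω))
    have h3 := p3 (!t)
    linarith
  -- pairs of labels
  have pair : ∀ σ τ, P.C (fun ω => (F.lab σ (k ω) (x ω), F.lab τ (j ω) (x ω)))
      (fun ω => (k ω, j ω)) ≤ 3 * l / 4 + 12 * e := by
    intro σ τ
    have h1 := L.gic Ω (G × G) (Fin n × Fin n) P
      (fun ω => (F.lab σ (k ω) (x ω), F.lab τ (j ω) (x ω))) (fun ω => (k ω, j ω))
      (fun kj => (F.D kj.1 ∩ F.D kj.2).image (fun v => (F.lab σ kj.1 v, F.lab τ kj.2 v)))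
      (fun kj s => (((F.D kj.1 ∩ F.D kj.2).filter
        (fun v => F.lab σ kj.1 v = s.1 ∧ F.lab τ kj.2 v = s.2)).card : ℝ))
      (fun _ _ _ => Nat.cast_nonneg _) (fun ω hω => ?_)
    · have h2 : P.E (fun ω => Real.log (∑ s ∈ (F.D (k ω) ∩ F.D (j ω)).image
          (fun v => (F.lab σ (k ω) v, F.lab τ (j ω) v)),
          (((F.D (k ω) ∩ F.D (j ω)).filter
            (fun v => F.lab σ (k ω) v = s.1 ∧ F.lab τ (j ω) v = s.2)).card : ℝ))) ≤ l := by
        refine E_le fun ω _ => ?_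
        have h3 : (∑ s ∈ (F.D (k ω) ∩ F.D (j ω)).image
            (fun v => (F.lab σ (k ω) v, F.lab τ (j ω) v)),
            (((F.D (k ω) ∩ F.D (j ω)).filter
              (fun v => F.lab σ (k ω) v = s.1 ∧ F.lab τ (j ω) v = s.2)).card : ℝ)) =
            ((F.D (k ω) ∩ F.D (j ω)).card : ℝ) := by
          rw [Finset.card_eq_sum_card_image
            (fun v => (F.lab σ (k ω) v, F.lab τ (j ω) v)) (F.D (k ω) ∩ F.D (j ω)),
            Nat.cast_sum]
          refine Finset.sum_congr rfl fun s _ => ?_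
          congr 2
          refine Finset.filter_congr fun v _ => ?_
          constructor
          · rintro ⟨h5, h6⟩
            exact Prod.ext h5 h6
          · intro h5
            exact Prod.ext_iff.mp h5
        rw [h3]
        exact hcardD (k ω) (j ω)
      have h4 := (p4 σ τ).1
      have h5 : P.E (fun ω => Real.log (F.cnt σ τ (k ω) (j ω) (x ω))) =
          P.E (fun ω => Real.log ((((F.D (k ω) ∩ F.D (j ω)).filter
            (fun v => F.lab σ (k ω) v = F.lab σ (k ω) (x ω) ∧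
              F.lab τ (j ω) v = F.lab τ (j ω) (x ω))).card : ℝ))) := rfl
      rw [h5] at h4
      have h6 := h1.trans h2
      linarith
    · refine ⟨Finset.mem_image_of_mem (fun v => (F.lab σ (k ω) v, F.lab τ (j ω) v))
        (Finset.mem_inter.mpr (hx ω hω)), ?_⟩
      have h3 : 0 < ((F.D (k ω) ∩ F.D (j ω)).filter
          (fun v => F.lab σ (k ω) v = F.lab σ (k ω) (x ω) ∧
            F.lab τ (j ω) v = F.lab τ (j ω) (x ω))).card :=
        Finset.card_pos.mpr ⟨x ω, Finset.mem_filter.mpr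
          ⟨Finset.mem_inter.mpr (hx ω hω), rfl, rfl⟩⟩
      exact_mod_cast h3
  have jk : ∀ σ τ, P.C (fun ω => F.lab τ (j ω) (x ω))
      (fun ω => (F.lab σ (k ω) (x ω), (k ω, j ω))) ≤ l / 4 + 16 * e := by
    intro σ τ
    have h1 := C_chain' L (P := P) (fun ω => F.lab σ (k ω) (x ω))
      (fun ω => F.lab τ (j ω) (x ω)) (fun ω => (k ω, j ω))
    have h2 := pair σ τ
    have h3 := labk_lo σ
    linarith
  have kj : ∀ σ τ, P.C (fun ω => F.lab σ (k ω) (x ω))
      (fun ω => (F.lab τ (j ω) (x ω), (k ω, j ω))) ≤ l / 4 + 16 * e := by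
    intro σ τ
    have h1 := C_chain L (P := P) (fun ω => F.lab σ (k ω) (x ω))
      (fun ω => F.lab τ (j ω) (x ω)) (fun ω => (k ω, j ω))
    have h2 := pair σ τ
    have h3 := labj_lo τ
    linarith
  have wdet : ∀ (σ τ : Bool) (ω : Ω), P.p ω ≠ 0 → F.w (xor σ τ) (k ω) (j ω) (x ω) =
      (if σ then (if τ then F.lab σ (k ω) (x ω) - F.lab τ (j ω) (x ω)
          else F.lab σ (k ω) (x ω) + F.lab τ (j ω) (x ω))
        else (if τ then F.lab τ (j ω) (x ω) + F.lab σ (k ω) (x ω)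
          else F.lab σ (k ω) (x ω) - F.lab τ (j ω) (x ω))) := by
    intro σ τ ω hω
    have h := (al1 G n F (k ω) (j ω)).1 (x ω) (Finset.mem_inter.mpr (hx ω hω))
    cases σ <;> cases τ
    · simp only [Fam.w, Fam.lab, Bool.xor_self, Bool.false_eq_true, if_false]
      exact h.2
    · simp only [Fam.w, Fam.lab, Bool.false_xor, Bool.false_eq_true, if_false, if_true]
      exact h.1
    · simp only [Fam.w, Fam.lab, Bool.xor_false, Bool.false_eq_true, if_false, if_true]
    · simp only [Fam.w, Fam.lab, Bool.xor_self, Bool.false_eq_true, if_false, if_true]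
  have wpair : ∀ σ τ, P.C (fun ω => (F.lab σ (k ω) (x ω), F.lab τ (j ω) (x ω)))
      (fun ω => (F.w (xor σ τ) (k ω) (j ω) (x ω), (k ω, j ω))) ≤ l / 4 + 17 * e := by
    intro σ τ
    have h1 := C_chain L (P := P) (fun ω => (F.lab σ (k ω) (x ω), F.lab τ (j ω) (x ω)))
      (fun ω => F.w (xor σ τ) (k ω) (j ω) (x ω)) (fun ω => (k ω, j ω))
    have h2 : P.C (fun ω => ((F.lab σ (k ω) (x ω), F.lab τ (j ω) (x ω)),
        F.w (xor σ τ) (k ω) (j ω) (x ω))) (fun ω => (k ω, j ω)) ≤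
        P.C (fun ω => (F.lab σ (k ω) (x ω), F.lab τ (j ω) (x ω))) (fun ω => (k ω, j ω)) := by
      refine C_le_of_det L ?_
      intro ω ω' g1 g2 e'
      simp only [Prod.mk.injEq] at e' ⊢
      obtain ⟨⟨e1, e2⟩, e3, e4⟩ := e'
      refine ⟨⟨e1, e2⟩, ?_⟩
      rw [wdet σ τ ω g1, wdet σ τ ω' g2, e1, e2]
    have h3 := pair σ τ
    have h4 := w_lo (xor σ τ)
    linarith
  constructor
  · linarith
  · intro σ
    linarith [labk_lo σ]
  · intro σ
    linarith [labk_hi σ]
  · intro σ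
    linarith [labj_lo σ]
  · intro σ
    linarith [labj_hi σ]
  · intro t
    linarith [w_lo t]
  · intro t
    linarith [p3 t]
  · intro σ τ
    linarith [pair σ τ]
  · intro σ τ
    linarith [(p4 σ τ).2]
  · intro σ τ
    have h1 := C_le_card L (P := P) x
      (fun ω => ((F.lab σ (k ω) (x ω), F.lab τ (j ω) (x ω)), (k ω, j ω)))
      (fun u => (F.D u.2.1 ∩ F.D u.2.2).filter
        (fun v => F.lab σ u.2.1 v = u.1.1 ∧ F.lab τ u.2.2 v = u.1.2))
      (fun ω hω => Finset.mem_filter.mpr ⟨Finset.mem_inter.mpr (hx ω hω), rfl, rfl⟩)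
    have h2 : P.E (fun ω => Real.log (F.cnt σ τ (k ω) (j ω) (x ω))) =
        P.E (fun ω => Real.log ((((F.D (k ω) ∩ F.D (j ω)).filter
          (fun v => F.lab σ (k ω) v = F.lab σ (k ω) (x ω) ∧
            F.lab τ (j ω) v = F.lab τ (j ω) (x ω))).card : ℝ))) := rfl
    have h3 := (p4 σ τ).2
    rw [h2] at h3
    have h4 := h1.trans h3
    linarith
  · intro σ τ
    linarith [jk σ τ]
  · intro σ τ
    linarith [kj σ τ]
  · intro σ τ
    linarith [wpair σ τ]

end Pool.Agent.TF.H67
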